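import Mathlib

/-!
Viscosity sub- and supersolutions of the complex Monge-Ampere flow
`(omega_t + dd^c phi_t)^n = mu * exp (d_t phi + F (t, x, phi))` on the torus `C^n / (Z + iZ)^n`,
read on the universal cover `C^n`. A real (1,1)-form `i * sum A j k dz_j d(bar z_k)` is its
Hermitian matrix `A`, `dd^c q` is the complex Hessian `levi q`, the top power of a form is the
determinant of its matrix, and a volume form is its density `m` against the flat volume form.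
-/

set_option autoImplicit false

open scoped ComplexOrder

namespace Pool.Agent.Lib.MP_5fa4f2_an

/-- Wirtinger derivative `d/dz_j = (d/dx_j - i d/dy_j) / 2`. -/
noncomputable def dz {n : ℕ} (j : Fin n) (f : (Fin n → ℂ) → ℂ) (x : Fin n → ℂ) : ℂ :=
  (fderiv ℝ f x (Pi.single j 1) - Complex.I * fderiv ℝ f x (Pi.single j Complex.I)) / 2

/-- Wirtinger derivative `d/d(bar z_k) = (d/dx_k + i d/dy_k) / 2`. -/
noncomputable def dzbar {n : ℕ} (k : Fin n) (f : (Fin n → ℂ) → ℂ) (x : Fin n → ℂ) : ℂ :=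
  (fderiv ℝ f x (Pi.single k 1) + Complex.I * fderiv ℝ f x (Pi.single k Complex.I)) / 2

/-- The complex Hessian `(d^2 q / dz_j d(bar z_k))` of a real function `q` at `x`. -/
noncomputable def levi {n : ℕ} (q : (Fin n → ℂ) → ℝ) (x : Fin n → ℂ) : Matrix (Fin n) (Fin n) ℂ :=
  Matrix.of fun j k => dz j (dzbar k fun y => (q y : ℂ)) x

open Classical in
/-- `alpha_+ ^ n`: the determinant if the form is semi-positive, `0` otherwise. -/
noncomputable def detPlus {n : ℕ} (A : Matrix (Fin n) (Fin n) ℂ) : ℝ :=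
  if A.PosSemidef then A.det.re else 0

/-- Test functions at `(t₀, x₀)`: differentiable in `t` and `C^2` in `x` there (a class that
contains every function which is `C^1` in `t` and `C^2` in `x` near `(t₀, x₀)`). -/
def IsTest {n : ℕ} (q : ℝ → (Fin n → ℂ) → ℝ) (t₀ : ℝ) (x₀ : Fin n → ℂ) : Prop :=
  DifferentiableAt ℝ (fun t => q t x₀) t₀ ∧ ContDiffAt ℝ 2 (q t₀) x₀

/-- Viscosity subsolution inequality on `(0,T) × X`, in the strong form which also asks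
`omega + dd^c q` to be semi-positive at the contact point. -/
def IsSub {n : ℕ} (T : ℝ) (ω : ℝ → (Fin n → ℂ) → Matrix (Fin n) (Fin n) ℂ)
    (F : ℝ → (Fin n → ℂ) → ℝ → ℝ) (m u : ℝ → (Fin n → ℂ) → ℝ) : Prop :=
  ∀ t₀ ∈ Set.Ioo 0 T, ∀ (x₀ : Fin n → ℂ) (q : ℝ → (Fin n → ℂ) → ℝ), IsTest q t₀ x₀ →
    IsLocalMax (fun p : ℝ × (Fin n → ℂ) => u p.1 p.2 - q p.1 p.2) (t₀, x₀) →
    (ω t₀ x₀ + levi (q t₀) x₀).PosSemidef ∧
      Real.exp (deriv (fun t => q t x₀) t₀ + F t₀ x₀ (q t₀ x₀)) * m t₀ x₀ ≤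
        detPlus (ω t₀ x₀ + levi (q t₀) x₀)

/-- Viscosity supersolution inequality on `(0,T) × X`. -/
def IsSuper {n : ℕ} (T : ℝ) (ω : ℝ → (Fin n → ℂ) → Matrix (Fin n) (Fin n) ℂ)
    (F : ℝ → (Fin n → ℂ) → ℝ → ℝ) (m v : ℝ → (Fin n → ℂ) → ℝ) : Prop :=
  ∀ t₀ ∈ Set.Ioo 0 T, ∀ (x₀ : Fin n → ℂ) (q : ℝ → (Fin n → ℂ) → ℝ), IsTest q t₀ x₀ →
    IsLocalMin (fun p : ℝ × (Fin n → ℂ) => v p.1 p.2 - q p.1 p.2) (t₀, x₀) →
    detPlus (ω t₀ x₀ + levi (q t₀) x₀) ≤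
      Real.exp (deriv (fun t => q t x₀) t₀ + F t₀ x₀ (q t₀ x₀)) * m t₀ x₀

/-- Invariance under the lattice `(Z + iZ)^n`: `f t` is a function on the torus. -/
def OnTorus {n : ℕ} (f : ℝ → (Fin n → ℂ) → ℝ) : Prop :=
  ∀ (t : ℝ) (x : Fin n → ℂ) (a b : Fin n → ℤ),
    f t (x + fun j => (a j : ℂ) + (b j : ℂ) * Complex.I) = f t x

end Pool.Agent.Lib.MP_5fa4f2_an
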