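import Mathlib
import Pool.Agent.Lib.MP_5fa4f2_an.Defs

-- part Pool.Agent.Lib.MP_5fa4f2_an.Levi
section

set_option autoImplicit false

open scoped ComplexOrder
open Filter Topology Matrix

namespace Pool.Agent.Lib.MP_5fa4f2_an

variable {n : ℕ}

/-- second-order necessary condition in one variable -/
theorem oneD {g g' : ℝ → ℝ} {c : ℝ} (h1 : ∀ᶠ s in 𝓝 (0 : ℝ), HasDerivAt g (g' s) s)
    (h2 : HasDerivAt g' c 0) (hmax : IsLocalMax g 0) : c ≤ 0 := by
  by_contra hc
  push Not at hc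
  have hd : deriv g =ᶠ[𝓝 0] g' := h1.mono fun s hs => hs.deriv
  have hdd : deriv (deriv g) 0 = c := by rw [hd.deriv_eq, h2.deriv]
  have hmin : IsLocalMin g 0 :=
    isLocalMin_of_deriv_deriv_pos (by rw [hdd]; exact hc) hmax.deriv_eq_zero
      h1.self_of_nhds.continuousAt
  have hconst : g =ᶠ[𝓝 0] fun _ => g 0 := by
    filter_upwards [hmax, hmin] with s a b using le_antisymm a b
  have h3 : deriv g =ᶠ[𝓝 0] fun _ => 0 := by
    filter_upwards [hconst.eventuallyEq_nhds] with s hs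
    rw [hs.deriv_eq]; simp
  rw [h3.deriv_eq] at hdd
  simp at hdd
  linarith

theorem line_tendsto (x v : Fin n → ℂ) : Tendsto (fun s : ℝ => x + s • v) (𝓝 0) (𝓝 x) := by
  have : Continuous (fun s : ℝ => x + s • v) := by fun_prop
  simpa using this.tendsto 0

theorem line_deriv {q : (Fin n → ℂ) → ℝ} {x : Fin n → ℂ} (hq : ContDiffAt ℝ 2 q x)
    (v : Fin n → ℂ) :
    (∀ᶠ s in 𝓝 (0 : ℝ), HasDerivAt (fun s : ℝ => q (x + s • v)) (fderiv ℝ q (x + s • v) v) s) ∧
      HasDerivAt (fun s : ℝ => fderiv ℝ q (x + s • v) v) (fderiv ℝ (fderiv ℝ q) x v v) 0 := by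
  have hl : ∀ s : ℝ, HasDerivAt (fun s : ℝ => x + s • v) v s := by
    intro s
    simpa using ((hasDerivAt_id s).smul_const v).const_add x
  constructor
  · have h1 : ∀ᶠ y in 𝓝 x, ContDiffAt ℝ 2 q y := hq.eventually (by simp)
    filter_upwards [(line_tendsto x v).eventually h1] with s hs
    exact (hs.differentiableAt (by simp)).hasFDerivAt.comp_hasDerivAt s (hl s)
  · have h2 : DifferentiableAt ℝ (fderiv ℝ q) x :=
      (hq.fderiv_right (m := 1) (by norm_num)).differentiableAt (by simp)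
    have h3 : HasFDerivAt (fderiv ℝ q) (fderiv ℝ (fderiv ℝ q) x) (x + (0 : ℝ) • v) := by
      simpa using h2.hasFDerivAt
    have h4 := h3.comp_hasDerivAt (0 : ℝ) (hl 0)
    simpa using h4.clm_apply (hasDerivAt_const (0 : ℝ) v)

/-- the complex Hessian in terms of the real second derivative -/
theorem levi_eq {q : (Fin n → ℂ) → ℝ} {x : Fin n → ℂ} (hq : ContDiffAt ℝ 2 q x) (j k : Fin n) :
    levi q x j k =
      ((fderiv ℝ (fderiv ℝ q) x (Pi.single j 1) (Pi.single k 1) : ℂ) +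
        (fderiv ℝ (fderiv ℝ q) x (Pi.single j Complex.I) (Pi.single k Complex.I) : ℂ) +
        Complex.I * ((fderiv ℝ (fderiv ℝ q) x (Pi.single j 1) (Pi.single k Complex.I) : ℂ) -
          (fderiv ℝ (fderiv ℝ q) x (Pi.single j Complex.I) (Pi.single k 1) : ℂ))) / 4 := by
  have h1 : ∀ᶠ y in 𝓝 x, ContDiffAt ℝ 2 q y := hq.eventually (by simp)
  have h2 : DifferentiableAt ℝ (fderiv ℝ q) x :=
    (hq.fderiv_right (m := 1) (by norm_num)).differentiableAt (by simp)
  have h3 : (dzbar k fun y => (q y : ℂ)) =ᶠ[𝓝 x] fun y =>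
      ((fderiv ℝ q y (Pi.single k 1) : ℂ) +
        Complex.I * (fderiv ℝ q y (Pi.single k Complex.I) : ℂ)) / 2 := by
    filter_upwards [h1] with y hy
    have h4 := (Complex.ofRealCLM.hasFDerivAt.comp y (hy.differentiableAt (by simp)).hasFDerivAt)
    have h5 : fderiv ℝ (fun y => (q y : ℂ)) y = Complex.ofRealCLM.comp (fderiv ℝ q y) :=
      h4.fderiv
    simp [dzbar, h5]
  have h6 : ∀ w : Fin n → ℂ, HasFDerivAt (fun y => (fderiv ℝ q y w : ℂ))
      (Complex.ofRealCLM.comp ((fderiv ℝ (fderiv ℝ q) x).flip w)) x := by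
    intro w
    have h7 : HasFDerivAt (fun y => fderiv ℝ q y w) ((fderiv ℝ (fderiv ℝ q) x).flip w) x := by
      simpa using h2.hasFDerivAt.clm_apply (hasFDerivAt_const w x)
    exact Complex.ofRealCLM.hasFDerivAt.comp x h7
  have h8 := (((h6 (Pi.single k 1)).add
    ((h6 (Pi.single k Complex.I)).const_mul Complex.I)).mul_const (1 / 2 : ℂ))
  have h9 := (h8.congr_of_eventuallyEq (f₁ := dzbar k fun y => (q y : ℂ))
    (h3.trans (Eventually.of_forall fun y => by simp [div_eq_mul_inv]))).fderiv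
  simp only [levi, Matrix.of_apply, dz, h9]
  simp
  ring_nf
  simp
  ring

theorem vec_decomp (w : Fin n → ℂ) :
    w = ∑ j, ((w j).re • (Pi.single j 1 : Fin n → ℂ) +
      (w j).im • (Pi.single j Complex.I : Fin n → ℂ)) := by
  ext i
  simp only [Finset.sum_apply, Pi.add_apply, Pi.smul_apply, Pi.single_apply]
  rw [Finset.sum_eq_single i]
  · simp
  · intro b _ hb; simp [hb.symm]
  · simp

theorem bil_expand (B : (Fin n → ℂ) →L[ℝ] (Fin n → ℂ) →L[ℝ] ℝ) (w : Fin n → ℂ) :
    B w w = ∑ j, ∑ k, ((w j).re * (w k).re * B (Pi.single j 1) (Pi.single k 1) +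
      (w j).re * (w k).im * B (Pi.single j 1) (Pi.single k Complex.I) +
      (w j).im * (w k).re * B (Pi.single j Complex.I) (Pi.single k 1) +
      (w j).im * (w k).im * B (Pi.single j Complex.I) (Pi.single k Complex.I)) := by
  conv_lhs => rw [vec_decomp w]
  simp only [map_sum, map_add, map_smul, FunLike.coe_sum, Finset.sum_apply,
    _root_.add_apply, _root_.smul_apply, smul_eq_mul]
  rw [Finset.sum_comm]
  simp only [Finset.mul_sum, ← Finset.sum_add_distrib]
  refine Finset.sum_congr rfl fun j _ => Finset.sum_congr rfl fun k _ => ?_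
  ring

theorem levi_isHermitian {q : (Fin n → ℂ) → ℝ} {x : Fin n → ℂ} (hq : ContDiffAt ℝ 2 q x) :
    (levi q x).IsHermitian := by
  have hs := hq.isSymmSndFDerivAt (by simp)
  ext j k
  rw [Matrix.conjTranspose_apply, levi_eq hq, levi_eq hq]
  rw [hs (Pi.single k 1) (Pi.single j 1), hs (Pi.single k Complex.I) (Pi.single j Complex.I),
    hs (Pi.single k 1) (Pi.single j Complex.I), hs (Pi.single k Complex.I) (Pi.single j 1)]
  apply Complex.ext <;> simp

theorem levi_form {q : (Fin n → ℂ) → ℝ} {x : Fin n → ℂ} (hq : ContDiffAt ℝ 2 q x)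
    (ξ : Fin n → ℂ) :
    (star ξ ⬝ᵥ (levi q x *ᵥ ξ)).re =
      (fderiv ℝ (fderiv ℝ q) x (star ξ) (star ξ) +
        fderiv ℝ (fderiv ℝ q) x (Complex.I • star ξ) (Complex.I • star ξ)) / 4 := by
  rw [bil_expand, bil_expand]
  simp only [dotProduct, mulVec, levi_eq hq, Finset.mul_sum, Complex.re_sum,
    ← Finset.sum_add_distrib, Finset.sum_div]
  refine Finset.sum_congr rfl fun j _ => Finset.sum_congr rfl fun k _ => ?_
  simp
  ring

theorem posSemidef_of_re {A : Matrix (Fin n) (Fin n) ℂ} (hA : A.IsHermitian)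
    (h : ∀ ξ : Fin n → ℂ, 0 ≤ (star ξ ⬝ᵥ (A *ᵥ ξ)).re) : A.PosSemidef := by
  refine Matrix.PosSemidef.of_dotProduct_mulVec_nonneg hA fun ξ => ?_
  rw [Complex.nonneg_iff]
  refine ⟨h ξ, ?_⟩
  have := hA.im_star_dotProduct_mulVec_self ξ
  simpa using this.symm

theorem star_dot_self (ξ : Fin n → ℂ) :
    (star ξ ⬝ᵥ ξ).re = ∑ j, ((ξ j).re ^ 2 + (ξ j).im ^ 2) := by
  simp only [dotProduct, Complex.re_sum]
  refine Finset.sum_congr rfl fun j _ => ?_
  simp
  ring

theorem eigen_norm {A : Matrix (Fin n) (Fin n) ℂ} (hA : A.IsHermitian) (i : Fin n) :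
    (star (⇑(hA.eigenvectorBasis i) : Fin n → ℂ) ⬝ᵥ (⇑(hA.eigenvectorBasis i))).re = 1 := by
  rw [dotProduct_comm, ← EuclideanSpace.inner_eq_star_dotProduct, inner_self_eq_norm_sq_to_K,
    hA.eigenvectorBasis.orthonormal.1 i]
  simp

theorem det_re_eq {A : Matrix (Fin n) (Fin n) ℂ} (hA : A.IsHermitian) :
    A.det.re = ∏ i, hA.eigenvalues i := by
  rw [hA.det_eq_prod_eigenvalues]
  have : (∏ i, ((hA.eigenvalues i : ℝ) : ℂ)) = ((∏ i, hA.eigenvalues i : ℝ) : ℂ) := by
    push_cast; rfl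
  exact (congrArg Complex.re this).trans (Complex.ofReal_re _)

theorem det_ge {A : Matrix (Fin n) (Fin n) ℂ} (hA : A.IsHermitian) {c : ℝ} (hc : 0 ≤ c)
    (h : ∀ ξ : Fin n → ℂ, c * (star ξ ⬝ᵥ ξ).re ≤ (star ξ ⬝ᵥ (A *ᵥ ξ)).re) :
    c ^ n ≤ A.det.re := by
  rw [det_re_eq hA]
  calc c ^ n = ∏ _i : Fin n, c := by simp
    _ ≤ _ := by
      refine Finset.prod_le_prod (fun _ _ => hc) fun i _ => ?_
      have := h (hA.eigenvectorBasis i)
      rw [eigen_norm, mul_one] at this
      rw [hA.eigenvalues_eq]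
      exact this

theorem det_le {A : Matrix (Fin n) (Fin n) ℂ} (hA : A.PosSemidef)
    (h : ∀ ξ : Fin n → ℂ, (star ξ ⬝ᵥ (A *ᵥ ξ)).re ≤ (star ξ ⬝ᵥ ξ).re) :
    A.det.re ≤ 1 := by
  rw [det_re_eq hA.1]
  refine Finset.prod_le_one (fun i _ => hA.eigenvalues_nonneg i) fun i _ => ?_
  have := h (hA.1.eigenvectorBasis i)
  rw [eigen_norm] at this
  rw [hA.1.eigenvalues_eq]
  exact this

/-- contact from above with a function `h (Re x_i)` whose second derivative is `≥ -2` -/
theorem sub_contact {q : (Fin n → ℂ) → ℝ} {x : Fin n → ℂ} (hq : ContDiffAt ℝ 2 q x) (i : Fin n)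
    {h h1 h2 : ℝ → ℝ} (hh1 : ∀ s, HasDerivAt h (h1 s) s) (hh2 : ∀ s, HasDerivAt h1 (h2 s) s)
    (hb : ∀ s, -2 ≤ h2 s) (hmax : IsLocalMax (fun y => h (y i).re - q y) x) :
    (1 + levi q x).PosSemidef ∧ (1 / 2 : ℝ) ^ n ≤ detPlus (1 + levi q x) := by
  have key : ∀ v : Fin n → ℂ, -2 * (v i).re ^ 2 ≤ fderiv ℝ (fderiv ℝ q) x v v := by
    intro v
    obtain ⟨a1, a2⟩ := line_deriv hq v
    have hl : ∀ s : ℝ, HasDerivAt (fun s : ℝ => (x i).re + s * (v i).re) (v i).re s := by
      intro s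
      simpa using ((hasDerivAt_id s).mul_const (v i).re).const_add (x i).re
    have b1 : ∀ s : ℝ, HasDerivAt (fun s : ℝ => h ((x i).re + s * (v i).re))
        (h1 ((x i).re + s * (v i).re) * (v i).re) s := fun s => (hh1 _).comp s (hl s)
    have b2 : HasDerivAt (fun s : ℝ => h1 ((x i).re + s * (v i).re) * (v i).re)
        (h2 ((x i).re + 0 * (v i).re) * (v i).re * (v i).re) 0 :=
      ((hh2 _).comp (0 : ℝ) (hl 0)).mul_const _
    have hm : IsLocalMax (fun s : ℝ => h ((x i).re + s * (v i).re) - q (x + s • v)) 0 := by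
      have h0 : IsLocalMax (fun y => h (y i).re - q y) (x + (0 : ℝ) • v) := by simpa using hmax
      have hc : ContinuousAt (fun s : ℝ => x + s • v) 0 := by fun_prop
      have := h0.comp_continuous (g := fun s : ℝ => x + s • v) hc
      convert this using 2 with s
      simp
    have := oneD (a1.mono fun s hs => (b1 s).sub hs) (b2.sub a2) hm
    have h3 := hb ((x i).re + 0 * (v i).re)
    nlinarith [sq_nonneg (v i).re]
  have hH : (1 + levi q x).IsHermitian := Matrix.isHermitian_one.add (levi_isHermitian hq)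
  have hform : ∀ ξ : Fin n → ℂ,
      1 / 2 * (star ξ ⬝ᵥ ξ).re ≤ (star ξ ⬝ᵥ ((1 + levi q x) *ᵥ ξ)).re := by
    intro ξ
    rw [Matrix.add_mulVec, Matrix.one_mulVec, dotProduct_add, Complex.add_re, levi_form hq]
    have k1 := key (star ξ)
    have k2 := key (Complex.I • star ξ)
    have k3 : (ξ i).re ^ 2 + (ξ i).im ^ 2 ≤ (star ξ ⬝ᵥ ξ).re := by
      rw [star_dot_self]
      exact Finset.single_le_sum (f := fun j => (ξ j).re ^ 2 + (ξ j).im ^ 2)
        (fun j _ => by positivity) (Finset.mem_univ i)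
    have e1 : ((star ξ) i).re = (ξ i).re := by simp
    have e2 : ((Complex.I • star ξ) i).re = (ξ i).im := by simp
    rw [e1] at k1
    rw [e2] at k2
    linarith
  have hP : (1 + levi q x).PosSemidef := by
    refine posSemidef_of_re hH fun ξ => le_trans ?_ (hform ξ)
    rw [star_dot_self]
    positivity
  refine ⟨hP, ?_⟩
  rw [detPlus, if_pos hP]
  exact det_ge hH (by norm_num) hform

/-- contact from below with a constant -/
theorem super_contact {q : (Fin n → ℂ) → ℝ} {x : Fin n → ℂ} (hq : ContDiffAt ℝ 2 q x)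
    (hmax : IsLocalMax q x) : detPlus (1 + levi q x) ≤ 1 := by
  have key : ∀ v : Fin n → ℂ, fderiv ℝ (fderiv ℝ q) x v v ≤ 0 := by
    intro v
    obtain ⟨a1, a2⟩ := line_deriv hq v
    have hm : IsLocalMax (fun s : ℝ => q (x + s • v)) 0 := by
      have h0 : IsLocalMax q (x + (0 : ℝ) • v) := by simpa using hmax
      have hc : ContinuousAt (fun s : ℝ => x + s • v) 0 := by fun_prop
      exact h0.comp_continuous (g := fun s : ℝ => x + s • v) hc
    exact oneD a1 a2 hm
  rw [detPlus]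
  split_ifs with hP
  · refine det_le hP fun ξ => ?_
    rw [Matrix.add_mulVec, Matrix.one_mulVec, dotProduct_add, Complex.add_re, levi_form hq]
    have k1 := key (star ξ)
    have k2 := key (Complex.I • star ξ)
    linarith
  · norm_num

end Pool.Agent.Lib.MP_5fa4f2_an
end

-- part Pool.Agent.Lib.MP_5fa4f2_an.Example
section

set_option autoImplicit false

open scoped ComplexOrder
open Filter Topology Matrix

namespace Pool.Agent.Lib.MP_5fa4f2_an

variable {n : ℕ}

/-- smooth periodic bump, positive exactly where `sin (2 pi s) > 0` -/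
noncomputable def aa (s : ℝ) : ℝ := Real.smoothTransition (Real.sin (2 * Real.pi * s))

/-- smooth periodic bump, positive exactly where `sin (2 pi s) < 0` -/
noncomputable def bb (s : ℝ) : ℝ := Real.smoothTransition (-Real.sin (2 * Real.pi * s))

theorem aa_contDiff {k : ℕ∞} : ContDiff ℝ k aa := by
  unfold aa
  exact Real.smoothTransition.contDiff.comp (by fun_prop)

theorem bb_contDiff {k : ℕ∞} : ContDiff ℝ k bb := by
  unfold bb
  exact Real.smoothTransition.contDiff.comp (by fun_prop)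

theorem sin_int (s : ℝ) (a : ℤ) :
    Real.sin (2 * Real.pi * (s + a)) = Real.sin (2 * Real.pi * s) := by
  rw [← Real.sin_add_int_mul_two_pi (2 * Real.pi * s) a]
  congr 1
  ring

theorem aa_int (s : ℝ) (a : ℤ) : aa (s + a) = aa s := by simp only [aa, sin_int]
theorem bb_int (s : ℝ) (a : ℤ) : bb (s + a) = bb s := by simp only [bb, sin_int]

theorem aa_quarter : aa (1 / 4) = 1 := by
  have : 2 * Real.pi * (1 / 4) = Real.pi / 2 := by ring
  simp only [aa, this, Real.sin_pi_div_two, Real.smoothTransition.one]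

theorem bb_quarter : bb (-(1 / 4)) = 1 := by
  have : 2 * Real.pi * (-(1 / 4)) = -(Real.pi / 2) := by ring
  simp only [bb, this, Real.sin_neg, neg_neg, Real.sin_pi_div_two, Real.smoothTransition.one]

theorem bb_zero_near {s : ℝ} (h : aa s ≠ 0) : ∀ᶠ r in 𝓝 s, bb r = 0 := by
  have h1 : 0 < Real.sin (2 * Real.pi * s) := by
    by_contra h2
    exact h (Real.smoothTransition.zero_of_nonpos (not_lt.1 h2))
  have h2 : Continuous fun r : ℝ => Real.sin (2 * Real.pi * r) := by fun_prop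
  filter_upwards [h2.continuousAt.eventually (lt_mem_nhds h1)] with r hr
  exact Real.smoothTransition.zero_of_nonpos (by linarith)

theorem periodic_deriv {f : ℝ → ℝ} (hf : Function.Periodic f 1) :
    Function.Periodic (deriv f) 1 := by
  intro s
  have : f = fun x => f (x + 1) := funext fun x => (hf x).symm
  conv_rhs => rw [this]
  rw [deriv_comp_add_const]

theorem exists_h : ∃ (c : ℝ) (h1 h2 : ℝ → ℝ), 0 < c ∧
    (∀ s, HasDerivAt (fun s => c * bb s) (h1 s) s) ∧ (∀ s, HasDerivAt h1 (h2 s) s) ∧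
    ∀ s, -2 ≤ h2 s := by
  have hb : ContDiff ℝ ((⊤ : ℕ∞) : WithTop ℕ∞) bb := bb_contDiff
  have hb1 : ContDiff ℝ ((⊤ : ℕ∞) : WithTop ℕ∞) (deriv bb) := hb.iterate_deriv 1
  have hb2 : ContDiff ℝ ((⊤ : ℕ∞) : WithTop ℕ∞) (deriv (deriv bb)) := hb1.iterate_deriv 1
  have hp : Function.Periodic bb 1 := fun s => by simpa using bb_int s 1
  have hbd := (periodic_deriv (periodic_deriv hp)).isBounded_of_continuous one_ne_zero
    hb2.continuous
  obtain ⟨B, hB0, hB⟩ := hbd.exists_pos_norm_le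
  refine ⟨2 / B, fun s => 2 / B * deriv bb s, fun s => 2 / B * deriv (deriv bb) s,
    by positivity, fun s => ?_, fun s => ?_, fun s => ?_⟩
  · exact (hb.differentiable (by simp) s).hasDerivAt.const_mul _
  · exact (hb1.differentiable (by simp) s).hasDerivAt.const_mul _
  · have h1 := hB _ ⟨s, rfl⟩
    rw [Real.norm_eq_abs, abs_le] at h1
    have h2 : 2 / B * (-B) ≤ 2 / B * deriv (deriv bb) s :=
      mul_le_mul_of_nonneg_left h1.1 (by positivity)
    have h3 : 2 / B * (-B) = -2 := by field_simp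
    simpa [h3] using h2

/-- primitive of `L - 2 log |s|` -/
noncomputable def G (L s : ℝ) : ℝ := (L + 2) * s - 2 * (s * Real.log s)

theorem G_continuous (L : ℝ) : Continuous (G L) := by
  unfold G
  exact (continuous_const.mul continuous_id).sub (continuous_const.mul Real.continuous_mul_log)

theorem G_hasDerivAt (L : ℝ) {s : ℝ} (hs : s ≠ 0) :
    HasDerivAt (G L) (L - 2 * Real.log s) s := by
  have := ((hasDerivAt_id s).const_mul (L + 2)).sub ((Real.hasDerivAt_mul_log hs).const_mul 2)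
  have e : L - 2 * Real.log s = (L + 2) * 1 - 2 * (Real.log s + 1) := by ring
  rw [e]
  exact this

theorem G_zero (L : ℝ) : G L 0 = 0 := by simp [G]

theorem exists_t0 (L : ℝ) {c : ℝ} (hc : 0 < c) :
    ∃ t₀ ∈ Set.Ioo (0 : ℝ) 1, -G L (0 - t₀) < c := by
  have h1 : Continuous fun t : ℝ => -G L (0 - t) := ((G_continuous L).comp (by fun_prop)).neg
  have h2 : ∀ᶠ t in 𝓝 (0 : ℝ), -G L (0 - t) < c :=
    h1.continuousAt.eventually (gt_mem_nhds (by simpa [G_zero] using hc))
  have h3 : ∀ᶠ t in 𝓝[>] (0 : ℝ), t ∈ Set.Ioo (0 : ℝ) 1 := Ioo_mem_nhdsGT (by norm_num)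
  obtain ⟨t, ht1, ht2⟩ := (h3.and (nhdsWithin_le_nhds h2)).exists
  exact ⟨t, ht1, ht2⟩

/-- no differentiable function touches `G L` from below at `0` -/
theorem no_contact (L : ℝ) {r : ℝ → ℝ} {t₀ K : ℝ} (hr : DifferentiableAt ℝ r t₀)
    (hmin : IsLocalMin (fun t => G L (t - t₀) - K - r t) t₀) : False := by
  have h1 : Tendsto (slope r t₀) (𝓝[<] t₀) (𝓝 (deriv r t₀)) :=
    (hasDerivAt_iff_tendsto_slope_left_right.1 hr.hasDerivAt).1
  have h2 : ∀ᶠ t in 𝓝[<] t₀, slope r t₀ t < deriv r t₀ + 1 :=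
    h1.eventually (gt_mem_nhds (by linarith))
  have h3 : Tendsto (fun t => Real.log (t - t₀)) (𝓝[<] t₀) atBot := by
    apply Real.tendsto_log_nhdsNE_zero.comp
    apply tendsto_nhdsWithin_iff.2
    constructor
    · have : Continuous fun t : ℝ => t - t₀ := by fun_prop
      simpa using (this.tendsto t₀).mono_left nhdsWithin_le_nhds
    · filter_upwards [self_mem_nhdsWithin] with t ht
      exact (sub_neg.2 ht).ne
  have h4 := h3.eventually (eventually_le_atBot ((L + 1 - deriv r t₀) / 2))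
  have h5 : ∀ᶠ t in 𝓝[<] t₀, G L (t₀ - t₀) - K - r t₀ ≤ G L (t - t₀) - K - r t :=
    nhdsWithin_le_nhds hmin
  obtain ⟨t, ⟨⟨a2, a4⟩, a5⟩, a6⟩ := (((h2.and h4).and h5).and self_mem_nhdsWithin).exists
  have ht : t - t₀ < 0 := sub_neg.2 a6
  rw [slope_def_field, div_lt_iff_of_neg ht] at a2
  rw [sub_self, G_zero, G] at a5
  nlinarith

section Main

variable (i : Fin n) (c t₀ : ℝ)

/-- the density of the volume form -/
noncomputable def mm (t : ℝ) (x : Fin n → ℂ) : ℝ := ((t - t₀) ^ 2 + aa (x i).re) / 2 ^ (n + 1)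

/-- the subsolution -/
noncomputable def uu (t : ℝ) (x : Fin n → ℂ) : ℝ := if t < t₀ then 0 else c * bb (x i).re

/-- the supersolution -/
noncomputable def vv (t : ℝ) (_x : Fin n → ℂ) : ℝ :=
  G (Real.log (2 ^ (n + 1))) (t - t₀) - G (Real.log (2 ^ (n + 1))) (0 - t₀)

theorem mm_onTorus : OnTorus (mm i t₀) := by
  intro t x a b
  simp [mm, aa_int]

theorem uu_onTorus : OnTorus (uu i c t₀) := by
  intro t x a b
  simp [uu, bb_int]

theorem vv_onTorus : OnTorus (vv (n := n) t₀) := fun _ _ _ _ => rfl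

theorem mm_contDiff :
    ContDiff ℝ ((⊤ : ℕ∞) : WithTop ℕ∞) fun p : ℝ × (Fin n → ℂ) => mm i t₀ p.1 p.2 := by
  unfold mm
  refine ContDiff.div_const (ContDiff.add (by fun_prop) (aa_contDiff.comp ?_)) _
  exact Complex.reCLM.contDiff.comp (by fun_prop)

theorem mm_nonneg (t : ℝ) (x : Fin n → ℂ) : 0 ≤ mm i t₀ t x := by
  have := Real.smoothTransition.nonneg (Real.sin (2 * Real.pi * (x i).re))
  unfold mm aa
  positivity

theorem mm_le {t₀ : ℝ} (ht₀ : t₀ ∈ Set.Ioo (0 : ℝ) 1) {t : ℝ} (ht : t ∈ Set.Ico (0 : ℝ) 1)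
    (x : Fin n → ℂ) : mm i t₀ t x ≤ (1 / 2) ^ n := by
  have h1 := Real.smoothTransition.le_one (Real.sin (2 * Real.pi * (x i).re))
  have h2 : (t - t₀) ^ 2 ≤ 1 := by
    obtain ⟨a, b⟩ := ht₀
    obtain ⟨c, d⟩ := ht
    nlinarith
  unfold mm aa
  rw [div_le_iff₀ (by positivity), one_div, inv_pow, pow_succ (2 : ℝ) n, ← mul_assoc,
    inv_mul_cancel₀ (by positivity)]
  linarith

theorem uu_usc {c : ℝ} (hc : 0 < c) :
    UpperSemicontinuous fun p : ℝ × (Fin n → ℂ) => uu i c t₀ p.1 p.2 := by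
  have hcont : Continuous fun p : ℝ × (Fin n → ℂ) => c * bb (p.2 i).re :=
    continuous_const.mul ((bb_contDiff (k := 0)).continuous.comp (by fun_prop))
  intro p y hy
  by_cases hp : p.1 < t₀
  · have : ∀ᶠ q : ℝ × (Fin n → ℂ) in 𝓝 p, q.1 < t₀ :=
      continuous_fst.continuousAt.eventually (gt_mem_nhds hp)
    filter_upwards [this] with q hq
    simpa [uu, hp, hq] using hy
  · simp only [uu, hp, if_false] at hy
    filter_upwards [hcont.continuousAt.eventually (gt_mem_nhds hy)] with q hq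
    simp only [uu]
    split_ifs
    · exact lt_of_le_of_lt (mul_nonneg hc.le (Real.smoothTransition.nonneg _)) hq
    · exact hq

theorem vv_continuous : Continuous fun p : ℝ × (Fin n → ℂ) => vv t₀ p.1 p.2 := by
  unfold vv
  exact ((G_continuous _).comp (by fun_prop)).sub continuous_const

theorem slice_x {f : ℝ × (Fin n → ℂ) → ℝ} {t : ℝ} {x : Fin n → ℂ} (h : IsLocalMax f (t, x)) :
    IsLocalMax (fun y => f (t, y)) x :=
  h.comp_continuous (g := fun y : Fin n → ℂ => (t, y)) (by fun_prop)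

theorem slice_t {f : ℝ × (Fin n → ℂ) → ℝ} {t : ℝ} {x : Fin n → ℂ} (h : IsLocalMax f (t, x)) :
    IsLocalMax (fun s => f (s, x)) t :=
  h.comp_continuous (g := fun s : ℝ => (s, x)) (by fun_prop)

theorem uu_isSub {c t₀ : ℝ} (ht₀ : t₀ ∈ Set.Ioo (0 : ℝ) 1) {h1 h2 : ℝ → ℝ}
    (hh1 : ∀ s, HasDerivAt (fun s => c * bb s) (h1 s) s) (hh2 : ∀ s, HasDerivAt h1 (h2 s) s)
    (hb : ∀ s, -2 ≤ h2 s) :
    IsSub 1 (fun _ _ => 1) (fun _ _ _ => 0) (mm i t₀) (uu i c t₀) := by
  intro t ht x q hq hmax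
  -- the space part
  have hx : (1 + levi (q t) x).PosSemidef ∧ (1 / 2 : ℝ) ^ n ≤ detPlus (1 + levi (q t) x) := by
    have hs := slice_x hmax
    by_cases htt : t < t₀
    · refine sub_contact hq.2 i (h := fun _ => 0) (h1 := fun _ => 0) (h2 := fun _ => 0)
        (fun s => hasDerivAt_const _ _) (fun s => hasDerivAt_const _ _) (fun s => by norm_num) ?_
      simpa [uu, htt] using hs
    · refine sub_contact hq.2 i hh1 hh2 hb ?_
      simpa [uu, htt] using hs
  refine ⟨hx.1, le_trans ?_ hx.2⟩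
  by_cases hm : mm i t₀ t x = 0
  · rw [hm, mul_zero]; positivity
  -- the time part: `u` does not depend on time near the contact point
  have hconst : ∀ᶠ s in 𝓝 t, uu i c t₀ s x = uu i c t₀ t x := by
    rcases lt_trichotomy t t₀ with h | h | h
    · filter_upwards [gt_mem_nhds h] with s hs
      simp [uu, h, hs]
    · have ha : aa (x i).re ≠ 0 := by
        intro h0
        apply hm
        simp [mm, h, h0]
      have hb0 : bb (x i).re = 0 := (bb_zero_near ha).self_of_nhds
      exact Eventually.of_forall fun s => by simp [uu, hb0]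
    · filter_upwards [lt_mem_nhds h] with s hs
      simp [uu, h.not_gt, hs.not_gt]
  have ht1 : IsLocalMax (fun s => uu i c t₀ t x - q s x) t := by
    refine (slice_t hmax).congr ?_
    filter_upwards [hconst] with s hs
    simp [hs]
  have hd : deriv (fun s => q s x) t = 0 := by
    have := ht1.hasDerivAt_eq_zero (hq.1.hasDerivAt.const_sub _)
    simpa using this
  simp only [hd, add_zero, Real.exp_zero, one_mul]
  exact mm_le i ht₀ ⟨ht.1.le, ht.2⟩ x

theorem vv_isSuper : IsSuper 1 (fun _ _ => 1) (fun _ _ _ => 0) (mm i t₀) (vv t₀) := by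
  intro t _ x q hq hmin
  have hs : IsLocalMax (q t) x := by
    have := slice_x hmin.neg
    have h2 := this.add (isMaxFilter_const (b := vv t₀ t x))
    simpa [vv] using h2
  refine le_trans (super_contact hq.2 hs) ?_
  have ht1 : IsLocalMin (fun s => vv t₀ s x - q s x) t := by
    simpa using (slice_t hmin.neg).neg
  by_cases htt : t = t₀
  · subst htt
    exact (no_contact _ hq.1 ht1).elim
  have hne : t - t₀ ≠ 0 := sub_ne_zero.2 htt
  have hv : HasDerivAt (fun s => vv t₀ s x)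
      (Real.log (2 ^ (n + 1)) - 2 * Real.log (t - t₀)) t := by
    unfold vv
    have := ((G_hasDerivAt (Real.log (2 ^ (n + 1))) hne).comp t
      ((hasDerivAt_id t).sub_const t₀)).sub_const (G (Real.log (2 ^ (n + 1))) (0 - t₀))
    simpa using this
  have hd : deriv (fun s => q s x) t = Real.log (2 ^ (n + 1)) - 2 * Real.log (t - t₀) := by
    have := ht1.hasDerivAt_eq_zero (hv.sub hq.1.hasDerivAt)
    linarith
  have hsq : 0 < (t - t₀) ^ 2 := by positivity
  have he : Real.exp (Real.log (2 ^ (n + 1)) - 2 * Real.log (t - t₀)) =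
      2 ^ (n + 1) / (t - t₀) ^ 2 := by
    have : 2 * Real.log (t - t₀) = Real.log ((t - t₀) ^ 2) := by simp
    rw [this, Real.exp_sub, Real.exp_log (by positivity), Real.exp_log hsq]
  simp only [hd, add_zero, he, mm]
  have ha := Real.smoothTransition.nonneg (Real.sin (2 * Real.pi * (x i).re))
  rw [div_mul_div_comm, mul_comm ((2 : ℝ) ^ (n + 1)), mul_div_mul_right _ _ (by positivity),
    le_div_iff₀ hsq]
  unfold aa
  linarith

end Main

end Pool.Agent.Lib.MP_5fa4f2_an
end
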