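import Mathlib

/-! A function of `(τ, x)` that climbs from `0` to `1` in `τ`, has bounded second differences in
`x`, and at each `τ` changes only near one point `x`. -/

set_option autoImplicit false

open Filter Topology Set BoundedContinuousFunction

namespace Pool.Agent.Lib.MP_5fa4f2_an.Scan

variable {E F : Type*} [NormedAddCommGroup E] {M r : ℕ}

/-- Bounds for first and second differences. -/
def Reg (C : ℝ) (f : E → ℝ) : Prop := (∀ x y, |f x - f y| ≤ C * ‖x - y‖) ∧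
  ∀ x v, |f (x + v) + f (x - v) - 2 * f x| ≤ C * ‖v‖ ^ 2

theorem Reg.mono {C D : ℝ} {f : E → ℝ} (h : Reg C f) (k : C ≤ D) : Reg D f :=
  ⟨fun x y => (h.1 x y).trans (by gcongr), fun x v => (h.2 x v).trans (by gcongr)⟩

theorem Reg.mul {C : ℝ} {f g : E → ℝ} (hC : 0 ≤ C) (hf : Reg C f) (hg : Reg 1 g)
    (f1 : ∀ x, |f x| ≤ 1) (g1 : ∀ x, |g x| ≤ 1) :
    Reg (4 + 5 * C) fun x => f x * g (x + x) := by
  have a : ∀ x y, |g (x + x) - g (y + y)| ≤ 2 * ‖x - y‖ := fun x y => (hg.1 _ _).trans (by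
    rw [add_sub_add_comm]
    linarith [norm_add_le (x - y) (x - y)])
  refine ⟨fun x y => ?_, fun x v => ?_⟩
  · have h1 := mul_le_mul (f1 x) (a x y) (abs_nonneg _) zero_le_one
    have h2 := mul_le_mul (hf.1 x y) (g1 (y + y)) (abs_nonneg _) (by positivity)
    rw [← abs_mul] at h1 h2
    have h3 := mul_nonneg hC (norm_nonneg (x - y))
    rw [show f x * g (x + x) - f y * g (y + y) =
      f x * (g (x + x) - g (y + y)) + (f x - f y) * g (y + y) by ring]
    linarith [abs_add_le (f x * (g (x + x) - g (y + y))) ((f x - f y) * g (y + y)),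
      norm_nonneg (x - y)]
  · have b : |g (x + v + (x + v)) + g (x - v + (x - v)) - 2 * g (x + x)| ≤ 4 * ‖v‖ ^ 2 := by
      rw [add_add_add_comm, sub_add_sub_comm]
      refine (hg.2 _ _).trans ?_
      nlinarith [norm_add_le v v, norm_nonneg (v + v), norm_nonneg v]
    have h1 := mul_le_mul (f1 x) b (abs_nonneg _) zero_le_one
    have h2 := mul_le_mul (hf.1 (x + v) x) (a (x + v) x) (abs_nonneg _) (by positivity)
    have h3 := mul_le_mul (hf.1 (x - v) x) (a (x - v) x) (abs_nonneg _) (by positivity)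
    have h4 := mul_le_mul (hf.2 x v) (g1 (x + x)) (abs_nonneg _) (by positivity)
    rw [← abs_mul, abs_le] at h1 h2 h3 h4
    rw [add_sub_cancel_left] at h2
    rw [sub_sub_cancel_left, norm_neg] at h3
    rw [abs_le]
    constructor <;> nlinarith [h1.1, h1.2, h2.1, h2.2, h3.1, h3.2, h4.1, h4.2]

theorem one_active {y L B : ℝ} (hL : 0 < L) (hB : 0 ≤ B) (u : Fin M → ℝ)
    (h0 : ∀ j : Fin M, ¬ ((j : ℝ) * L < y ∧ y < (j + 1) * L) → u j = 0) (h1 : ∀ j, |u j| ≤ B) :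
    |∑ j, u j| ≤ B := by
  by_cases h : ∃ j, u j ≠ 0
  · obtain ⟨j, hj⟩ := h
    rw [Finset.sum_eq_single j (fun i _ hij => ?_) (by simp)]
    · exact h1 j
    by_contra hi
    have a := not_not.1 (mt (h0 j) hj)
    have b := not_not.1 (mt (h0 i) hi)
    have c : (j : ℝ) < i + 1 := lt_of_mul_lt_mul_right (a.1.trans b.2) hL.le
    have d : (i : ℝ) < j + 1 := lt_of_mul_lt_mul_right (b.1.trans a.2) hL.le
    have c' : (j : ℕ) < i + 1 := by exact_mod_cast c
    have d' : (i : ℕ) < j + 1 := by exact_mod_cast d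
    exact hij (Fin.ext (by omega))
  · push Not at h
    simpa [h] using hB

/-- The class in which the fixed point is found. -/
def cls (Λ : Set E) : Set ((ℝ × E) →ᵇ ℝ) := {H | (∀ p, 0 ≤ H p) ∧ (∀ p, H p ≤ 1) ∧
  (∀ τ x, τ ≤ 0 → H (τ, x) = 0) ∧ (∀ τ x, 1 ≤ τ → H (τ, x) = 1) ∧
  (∀ τ x y, |H (τ, x) - H (τ, y)| ≤ 1 * ‖x - y‖) ∧
  (∀ τ x v, |H (τ, x + v) + H (τ, x - v) - 2 * H (τ, x)| ≤ 1 * ‖v‖ ^ 2) ∧
  ∀ l, l ∈ Λ → ∀ τ x, H (τ, x + l) = H (τ, x)}

theorem cls_closed (Λ : Set E) : IsClosed (cls Λ) := by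
  simp only [cls, ofPred_and, ofPred_forall]
  refine (isClosed_iInter fun _ => ?_).inter ((isClosed_iInter fun _ => ?_).inter
    ((isClosed_iInter fun _ => isClosed_iInter fun _ => isClosed_iInter fun _ => ?_).inter
    ((isClosed_iInter fun _ => isClosed_iInter fun _ => isClosed_iInter fun _ => ?_).inter
    ((isClosed_iInter fun _ => isClosed_iInter fun _ => isClosed_iInter fun _ => ?_).inter
    ((isClosed_iInter fun _ => isClosed_iInter fun _ => isClosed_iInter fun _ => ?_).inter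
    (isClosed_iInter fun _ => isClosed_iInter fun _ => isClosed_iInter fun _ =>
      isClosed_iInter fun _ => ?_))))))
  all_goals first
    | exact isClosed_le (by fun_prop) (by fun_prop)
    | exact isClosed_eq (by fun_prop) (by fun_prop)

/-- The rescaled parameter on the piece `(j, a)`. -/
def pos (j : Fin M) (a : Fin r) (τ : ℝ) : ℝ := 2 * M * r * τ - 2 * (j * r + a)

theorem pos_cont (j : Fin M) (a : Fin r) : Continuous (pos j a) := by
  unfold pos
  fun_prop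

theorem exists_fix (Λ : Set E) (hΛ : ∀ l ∈ Λ, l + l ∈ Λ) (χ : Fin r → E → ℝ) {C : ℝ} (hC : 0 ≤ C)
    (c0 : ∀ a, Continuous (χ a)) (h0 : ∀ a x, 0 ≤ χ a x) (h1 : ∀ x, ∑ a, χ a x = 1)
    (h2 : ∀ a, Reg C (χ a)) (h3 : ∀ a, ∀ l ∈ Λ, ∀ x, χ a (x + l) = χ a x)
    (hM : r * (4 + 5 * C) + 2 ≤ M) :
    ∃ G ∈ cls Λ, ∀ τ x, G (τ, x) =
      (M : ℝ)⁻¹ * ∑ j : Fin M, ∑ a, χ a x * G (pos j a τ, x + x) := by
  have r0 : 0 < r := Nat.pos_of_ne_zero (by rintro rfl; simpa using h1 0)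
  have r1 : (1 : ℝ) ≤ r := by exact_mod_cast r0
  have M2 : (2 : ℝ) ≤ M := le_trans (le_add_of_nonneg_left (by positivity)) hM
  have M0 : (0 : ℝ) < M := by linarith
  have χ1 : ∀ a x, |χ a x| ≤ 1 := fun a x => by
    rw [abs_of_nonneg (h0 a x), ← h1 x]
    exact Finset.single_le_sum (f := fun a => χ a x) (fun a _ => h0 a x) (Finset.mem_univ a)
  let χB : Fin r → (ℝ × E) →ᵇ ℝ := fun a => ofNormedAddCommGroup (fun p => χ a p.2)
    ((c0 a).comp continuous_snd) 1 fun p => χ1 a p.2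
  let T : Fin M → Fin r → C(ℝ × E, ℝ × E) := fun j a =>
    ⟨fun p => (pos j a p.1, p.2 + p.2), ((pos_cont j a).comp continuous_fst).prodMk (by fun_prop)⟩
  let R : ((ℝ × E) →ᵇ ℝ) → (ℝ × E) →ᵇ ℝ := fun H =>
    (M : ℝ)⁻¹ • ∑ j : Fin M, ∑ a, χB a * H.compContinuous (T j a)
  let I : ((ℝ × E) →ᵇ ℝ) → Fin M → ℝ → E → ℝ := fun H j τ x =>
    ∑ a, χ a x * H (pos j a τ, x + x)
  have hR : ∀ H τ x, R H (τ, x) = (M : ℝ)⁻¹ * ∑ j, I H j τ x := fun H τ x => by
    simp [R, I, χB, T, coe_sum]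
  have ar : ∀ a : Fin r, (a : ℝ) + 1 ≤ r := fun a => by exact_mod_cast a.2
  have lo : ∀ H ∈ cls Λ, ∀ (j : Fin M) (τ : ℝ) x, 2 * M * r * τ ≤ j * (2 * r) → I H j τ x = 0 :=
    fun H hH j τ x h => Finset.sum_eq_zero fun a _ => by
      rw [hH.2.2.1 _ _ (by unfold pos; linarith [(a : ℕ).cast_nonneg (α := ℝ)]), mul_zero]
  have hi : ∀ H ∈ cls Λ, ∀ (j : Fin M) (τ : ℝ) x,
      (j + 1) * (2 * r) ≤ 2 * M * r * τ → I H j τ x = 1 :=
    fun H hH j τ x h => (Finset.sum_congr rfl fun a _ => by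
      rw [hH.2.2.2.1 _ _ (by unfold pos; linarith [ar a]), mul_one]).trans (h1 x)
  have ina : ∀ (j : Fin M) τ, ¬ ((j : ℝ) * (2 * r) < 2 * M * r * τ ∧
      2 * M * r * τ < (j + 1) * (2 * r)) → ∃ κ, ∀ H ∈ cls Λ, ∀ x, I H j τ x = κ := fun j τ h => by
    rcases not_and_or.1 h with h | h
    · exact ⟨0, fun H hH x => lo H hH j τ x (not_lt.1 h)⟩
    · exact ⟨1, fun H hH x => hi H hH j τ x (not_lt.1 h)⟩
  have reg : ∀ H ∈ cls Λ, ∀ j a τ, Reg (4 + 5 * C) fun x => χ a x * H (pos j a τ, x + x) :=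
    fun H hH (j : Fin M) a τ => (h2 a).mul (g := fun x => H (pos j a τ, x)) hC
      ⟨hH.2.2.2.2.1 _, hH.2.2.2.2.2.1 _⟩ (χ1 a) fun x => abs_le.2 ⟨by linarith [hH.1 (pos j a τ, x)],
        hH.2.1 _⟩
  have fin : ∀ (u : Fin r → ℝ) (B : ℝ), 0 ≤ B → (∀ a, |u a| ≤ (4 + 5 * C) * B) →
      |∑ a, u a| ≤ M * B := fun u B hB h => by
    refine (Finset.abs_sum_le_sum_abs _ _).trans ((Finset.sum_le_card_nsmul _ _ _
      fun a _ => h a).trans ?_)
    simp only [Finset.card_univ, Fintype.card_fin, nsmul_eq_mul]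
    nlinarith
  have div : ∀ s B : ℝ, |s| ≤ M * B → |(M : ℝ)⁻¹ * s| ≤ 1 * B := fun s B h => by
    rw [abs_mul, abs_of_pos (inv_pos.2 M0), inv_mul_le_iff₀ M0, one_mul]
    exact h
  have maps : MapsTo R (cls Λ) (cls Λ) := fun H hH => by
    refine ⟨fun ⟨τ, x⟩ => ?_, fun ⟨τ, x⟩ => ?_, fun τ x h => ?_, fun τ x h => ?_,
      fun τ x y => ?_, fun τ x v => ?_, fun l hl τ x => ?_⟩
    · rw [hR]
      exact mul_nonneg (by positivity) (Finset.sum_nonneg fun j _ => Finset.sum_nonneg fun a _ =>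
        mul_nonneg (h0 _ _) (hH.1 _))
    · rw [hR, inv_mul_le_iff₀ M0]
      refine (Finset.sum_le_card_nsmul _ _ 1 fun j _ => ?_).trans (by simp)
      rw [← h1 x]
      exact Finset.sum_le_sum fun a _ => mul_le_of_le_one_right (h0 _ _) (hH.2.1 _)
    · rw [hR, Finset.sum_eq_zero fun j _ => lo H hH j τ x ?_, mul_zero]
      exact (mul_nonpos_of_nonneg_of_nonpos (by positivity) h).trans (by positivity)
    · rw [hR, Finset.sum_congr rfl fun j _ => hi H hH j τ x ?_]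
      · simp [M0.ne']
      have : (j : ℝ) + 1 ≤ M := by exact_mod_cast j.2
      have : 2 * M * r * 1 ≤ 2 * M * r * τ := by gcongr
      nlinarith
    · rw [hR, hR, ← mul_sub, ← Finset.sum_sub_distrib]
      refine div _ _ (one_active (y := 2 * M * r * τ) (L := 2 * r) (by positivity) (by positivity)
        _ (fun j h => ?_) fun j => ?_)
      · obtain ⟨κ, hκ⟩ := ina j τ h
        rw [hκ H hH, hκ H hH, sub_self]
      · rw [← Finset.sum_sub_distrib]
        exact fin _ _ (norm_nonneg _) fun a => (reg H hH j a τ).1 x y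
    · rw [hR, hR, hR, mul_left_comm, ← mul_add, ← mul_sub, Finset.mul_sum, ← Finset.sum_add_distrib,
        ← Finset.sum_sub_distrib]
      refine div _ _ (one_active (y := 2 * M * r * τ) (L := 2 * r) (by positivity) (by positivity)
        _ (fun j h => ?_) fun j => ?_)
      · obtain ⟨κ, hκ⟩ := ina j τ h
        rw [hκ H hH, hκ H hH, hκ H hH]
        ring
      · rw [Finset.mul_sum, ← Finset.sum_add_distrib, ← Finset.sum_sub_distrib]
        exact fin _ _ (by positivity) fun a => (reg H hH j a τ).2 x v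
    · rw [hR, hR]
      simp only [I, h3 _ l hl, add_add_add_comm x l x l, hH.2.2.2.2.2.2 _ (hΛ l hl)]
  have con : ContractingWith (1 / 2) (maps.restrict R _ _) := by
    refine ⟨by norm_num, LipschitzWith.of_dist_le_mul fun H K => ?_⟩
    rw [Subtype.dist_eq, Subtype.dist_eq H K]
    refine (dist_le (by positivity)).2 fun ⟨τ, x⟩ => ?_
    rw [MapsTo.val_restrict_apply, MapsTo.val_restrict_apply, hR, hR, Real.dist_eq, ← mul_sub,
      ← Finset.sum_sub_distrib]
    refine (div _ (dist H.1 K.1 / M) ?_).trans ?_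
    · rw [mul_div_cancel₀ _ M0.ne']
      refine one_active (y := 2 * M * r * τ) (L := 2 * r) (by positivity) dist_nonneg _
        (fun j h => ?_) fun j => ?_
      · obtain ⟨κ, hκ⟩ := ina j τ h
        rw [hκ _ H.2, hκ _ K.2, sub_self]
      · rw [← Finset.sum_sub_distrib, ← one_mul (dist H.1 K.1), ← h1 x, Finset.sum_mul]
        refine (Finset.abs_sum_le_sum_abs _ _).trans (Finset.sum_le_sum fun a _ => ?_)
        rw [← mul_sub, abs_mul, abs_of_nonneg (h0 a x)]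
        exact mul_le_mul_of_nonneg_left (dist_coe_le_dist (f := H.1) (g := K.1) _) (h0 a x)
    · rw [one_mul, div_le_iff₀ M0]
      push_cast
      nlinarith [dist_nonneg (x := H.1) (y := K.1)]
  let H₀ : (ℝ × E) →ᵇ ℝ := ofNormedAddCommGroup (fun p => max 0 (min 1 p.1)) (by fun_prop) 1
    fun p => abs_le.2 ⟨by linarith [le_max_left 0 (min 1 p.1)],
      max_le zero_le_one (min_le_left _ _)⟩
  have m0 : H₀ ∈ cls Λ := ⟨fun p => le_max_left _ _, fun p => max_le zero_le_one (min_le_left _ _),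
    fun τ x h => max_eq_left ((min_le_right _ _).trans h),
    fun τ x h => by simp [H₀, h], fun τ x y => by simp [H₀], fun τ x v => by
      simp only [H₀, coe_ofNormedAddCommGroup, ← two_mul, sub_self, abs_zero]; positivity,
    fun _ _ _ _ => rfl⟩
  obtain ⟨G, hG, hf, -⟩ := con.exists_fixedPoint' (cls_closed Λ).isComplete maps m0 (edist_ne_top _ _)
  exact ⟨G, hG, fun τ x => by rw [← hR, hf.eq]⟩

/-- The sets off which the function does not depend on the parameter. -/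
def lev (M : ℕ) (A : Fin r → Set F) (Q : F → F) : ℕ → Set (ℝ × F)
  | 0 => {p | p.1 ∈ Icc 0 1}
  | k + 1 => ⋃ j : Fin M, ⋃ a : Fin r, {p | p.2 ∈ A a ∧ (pos j a p.1, Q p.2) ∈ lev M A Q k}

variable {A : Fin r → Set F} {Q : F → F}

theorem lev_closed [TopologicalSpace F] (hA : ∀ a, IsClosed (A a)) (hQ : Continuous Q) (k : ℕ) :
    IsClosed (lev M A Q k) := by
  induction k with
  | zero => exact isClosed_Icc.preimage continuous_fst
  | succ k ih =>
    exact isClosed_iUnion_of_finite fun j => isClosed_iUnion_of_finite fun a =>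
      ((hA a).preimage continuous_snd).inter (ih.preimage
        (((pos_cont j a).comp continuous_fst).prodMk (hQ.comp continuous_snd)))

theorem pos_lt (j : Fin M) (a : Fin r) : (j : ℕ) * r + a + 1 ≤ M * r :=
  le_trans (by rw [Nat.succ_mul]; omega) (Nat.mul_le_mul_right r (Nat.succ_le_of_lt j.2))

theorem lev_sub (k : ℕ) : ∀ p ∈ lev M A Q k, p.1 ∈ Icc (0 : ℝ) 1 := by
  induction k with
  | zero => exact fun _ h => h
  | succ k ih =>
    intro p hp
    simp only [lev, mem_iUnion, mem_ofPred_eq] at hp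
    obtain ⟨j, a, -, h⟩ := hp
    obtain ⟨h1, h2⟩ := ih _ h
    have h3 : ((j : ℕ) * r + a + 1 : ℝ) ≤ M * r := by exact_mod_cast pos_lt j a
    have h4 : (0 : ℝ) ≤ (j : ℕ) * r + a := by positivity
    simp only [pos] at h1 h2
    constructor
    · by_contra h5
      nlinarith
    · by_contra h5
      nlinarith

theorem lev_sep (k : ℕ) : ∀ τ y y', (τ, y) ∈ lev M A Q (k + 1) → (τ, y') ∈ lev M A Q (k + 1) →
    ∃ a, Q^[k] y ∈ A a ∧ Q^[k] y' ∈ A a := by
  have key : ∀ k τ y y', (τ, y) ∈ lev M A Q (k + 1) → (τ, y') ∈ lev M A Q (k + 1) →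
      ∃ a σ, y ∈ A a ∧ y' ∈ A a ∧ (σ, Q y) ∈ lev M A Q k ∧ (σ, Q y') ∈ lev M A Q k := by
    intro k τ y y' h h'
    simp only [lev, mem_iUnion, mem_ofPred_eq] at h h'
    obtain ⟨j, a, h1, h2⟩ := h
    obtain ⟨j', a', k1, k2⟩ := h'
    obtain ⟨h3, h4⟩ := lev_sub k _ h2
    obtain ⟨k3, k4⟩ := lev_sub k _ k2
    simp only [pos] at h3 h4 k3 k4
    have e1 : 2 * ((j : ℕ) * r + a) ≤ 2 * ((j' : ℕ) * r + a') + 1 := by
      exact_mod_cast (show (2 * ((j : ℕ) * r + a) : ℝ) ≤ 2 * ((j' : ℕ) * r + a') + 1 by linarith)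
    have e2 : 2 * ((j' : ℕ) * r + a') ≤ 2 * ((j : ℕ) * r + a) + 1 := by
      exact_mod_cast (show (2 * ((j' : ℕ) * r + a') : ℝ) ≤ 2 * ((j : ℕ) * r + a) + 1 by linarith)
    have e3 : (j : ℕ) * r + a = (j' : ℕ) * r + a' := by omega
    have e4 : a = a' := Fin.ext (by
      have := congrArg (· % r) e3
      simpa [Nat.mul_add_mod_of_lt, Nat.mod_eq_of_lt a.2, Nat.mod_eq_of_lt a'.2] using this)
    have e5 : pos j' a' τ = pos j a τ := by
      have : ((j : ℕ) * r + a : ℝ) = (j' : ℕ) * r + a' := by exact_mod_cast e3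
      simp only [pos, this]
    exact ⟨a, _, h1, e4 ▸ k1, h2, e5 ▸ k2⟩
  induction k with
  | zero =>
    intro τ y y' h h'
    obtain ⟨a, -, h1, h2, -⟩ := key 0 τ y y' h h'
    exact ⟨a, h1, h2⟩
  | succ k ih =>
    intro τ y y' h h'
    obtain ⟨a, σ, -, -, h1, h2⟩ := key _ τ y y' h h'
    exact ih σ _ _ h1 h2

theorem lev_const {Λ : Set E} {χ : Fin r → E → ℝ} {P : E → F} {G : (ℝ × E) →ᵇ ℝ} (hG : G ∈ cls Λ)
    (hf : ∀ τ x, G (τ, x) = (M : ℝ)⁻¹ * ∑ j : Fin M, ∑ a, χ a x * G (pos j a τ, x + x))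
    (hP : ∀ x, P (x + x) = Q (P x)) (hA : ∀ a x, χ a x ≠ 0 → P x ∈ A a) (k : ℕ) :
    ∀ τ x, (τ, P x) ∉ lev M A Q k → ∀ᶠ σ in 𝓝 τ, G (σ, x) = G (τ, x) := by
  induction k with
  | zero =>
    intro τ x h
    rcases not_and_or.1 h with h | h
    · filter_upwards [gt_mem_nhds (not_le.1 h)] with σ hσ
      rw [hG.2.2.1 _ _ hσ.le, hG.2.2.1 _ _ (not_le.1 h).le]
    · filter_upwards [lt_mem_nhds (not_le.1 h)] with σ hσ
      rw [hG.2.2.2.1 _ _ hσ.le, hG.2.2.2.1 _ _ (not_le.1 h).le]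
  | succ k ih =>
    intro τ x h
    simp only [lev, mem_iUnion, mem_ofPred_eq, not_exists, not_and] at h
    have : ∀ᶠ σ in 𝓝 τ, ∀ (j : Fin M) a,
        χ a x * G (pos j a σ, x + x) = χ a x * G (pos j a τ, x + x) := by
      refine eventually_all.2 fun j => eventually_all.2 fun a => ?_
      by_cases h0 : χ a x = 0
      · simp [h0]
      filter_upwards [(pos_cont j a).continuousAt.eventually
        (ih _ (x + x) (hP x ▸ h j a (hA a x h0)))] with σ hσ
      rw [hσ]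
    filter_upwards [this] with σ hσ
    rw [hf σ, hf τ]
    simp only [hσ]

end Pool.Agent.Lib.MP_5fa4f2_an.Scan
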