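import Pool.Agent.Lib.MP_5fa4f2_an.Time2
import Pool.Agent.Lib.MP_5fa4f2_an.Scan

/-! The scanning function on the torus. -/

set_option autoImplicit false

open Filter Topology Set Matrix
open scoped ContDiff ComplexOrder Real

namespace Pool.Agent.Lib.MP_5fa4f2_an

open Scan

variable {n : ℕ}

/-- The lattice. -/
def lat (n : ℕ) : Set (Fin n → ℂ) :=
  {l | ∃ a b : Fin n → ℤ, l = fun j => (a j : ℂ) + (b j : ℂ) * Complex.I}

/-- The standard character. -/
noncomputable def ec (s : ℝ) : ℂ := Complex.exp (s * (2 * π * Complex.I))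

/-- The embedding of the torus. -/
noncomputable def emb (x : Fin n → ℂ) : (Fin n → ℂ) × (Fin n → ℂ) :=
  (fun j => ec (x j).re, fun j => ec (x j).im)

theorem ec_add (s t : ℝ) : ec (s + t) = ec s * ec t := by
  rw [ec, ec, ec, ← Complex.exp_add, Complex.ofReal_add, add_mul]

theorem ec_int (s : ℝ) (k : ℤ) : ec (s + k) = ec s := by
  rw [ec_add, ec, ec, Complex.ofReal_intCast, Complex.exp_int_mul_two_pi_mul_I, mul_one]

theorem norm_ec (s : ℝ) : ‖ec s‖ = 1 := by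
  rw [ec, ← Complex.norm_exp_ofReal_mul_I (s * (2 * π))]
  push_cast
  ring_nf

theorem ec_inj {s t : ℝ} (h : ec t = ec s) : ∃ k : ℤ, t = s + k := by
  obtain ⟨k, hk⟩ := Complex.exp_eq_exp_iff_exists_int.1 h
  rw [← add_mul] at hk
  exact ⟨k, by exact_mod_cast mul_right_cancel₀ Complex.two_pi_I_ne_zero hk⟩

theorem ec_smooth : ContDiff ℝ ∞ ec := (Complex.ofRealCLM.contDiff.mul contDiff_const).cexp

theorem emb_smooth : ContDiff ℝ ∞ (emb (n := n)) :=
  (contDiff_pi.2 fun j => ec_smooth.comp (Complex.reCLM.contDiff.comp (contDiff_apply ℝ ℂ j))).prodMk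
    (contDiff_pi.2 fun j => ec_smooth.comp (Complex.imCLM.contDiff.comp (contDiff_apply ℝ ℂ j)))

theorem emb_lat {l : Fin n → ℂ} (hl : l ∈ lat n) (x : Fin n → ℂ) : emb (x + l) = emb x := by
  obtain ⟨a, b, rfl⟩ := hl
  simp [emb, ec_int]

theorem emb_add (x : Fin n → ℂ) : emb (x + x) = emb x * emb x := by
  ext j <;> simp [emb, ec_add]

theorem emb_mem (x : Fin n → ℂ) : emb x ∈ Metric.closedBall 0 1 := by
  rw [mem_closedBall_zero_iff, Prod.norm_def, max_le_iff]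
  constructor <;> exact (pi_norm_le_iff_of_nonneg zero_le_one).2 fun j => (norm_ec _).le

theorem ec_expand {s t : ℝ} (h : ∀ k : ℕ, ‖ec (2 ^ k * s) - ec (2 ^ k * t)‖ ≤ 1 / 2) :
    ec s = ec t := by
  have key : ∀ k : ℕ, (3 / 2 : ℝ) ^ k * ‖ec s - ec t‖ ≤ ‖ec (2 ^ k * s) - ec (2 ^ k * t)‖ := by
    intro k
    induction k with
    | zero => simp
    | succ k ih =>
      have e : ∀ u : ℝ, ec (2 ^ (k + 1) * u) = ec (2 ^ k * u) * ec (2 ^ k * u) := fun u => by
        rw [← ec_add]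
        ring_nf
      have a := norm_sub_le (ec (2 ^ k * s) + ec (2 ^ k * t)) (ec (2 ^ k * t) - ec (2 ^ k * s))
      rw [show ec (2 ^ k * s) + ec (2 ^ k * t) - (ec (2 ^ k * t) - ec (2 ^ k * s)) =
        2 * ec (2 ^ k * s) by ring, norm_mul, norm_ec, norm_sub_rev, Complex.norm_two] at a
      rw [e, e, mul_self_sub_mul_self, norm_mul, pow_succ]
      nlinarith [h k, norm_nonneg (ec (2 ^ k * s) - ec (2 ^ k * t))]
  by_contra h0
  have h1 := norm_pos_iff.2 (sub_ne_zero.2 h0)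
  obtain ⟨k, hk⟩ := pow_unbounded_of_one_lt (1 / 2 / ‖ec s - ec t‖) (show (1 : ℝ) < 3 / 2 by norm_num)
  rw [div_lt_iff₀ h1] at hk
  linarith [key k, h k]

theorem emb_iter (k : ℕ) (x : Fin n → ℂ) :
    (fun y => y * y)^[k] (emb x) = emb ((2 ^ k : ℝ) • x) := by
  induction k with
  | zero => simp
  | succ k ih => rw [Function.iterate_succ_apply', ih, ← emb_add, ← add_smul, pow_succ, mul_two]

theorem emb_expand {x y : Fin n → ℂ} (h : ∀ k : ℕ,
    dist ((fun y => y * y)^[k] (emb y)) ((fun y => y * y)^[k] (emb x)) ≤ 1 / 2) :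
    ∃ l ∈ lat n, y = x + l := by
  simp only [emb_iter, Prod.dist_eq, max_le_iff,
    dist_pi_le_iff (show (0 : ℝ) ≤ 1 / 2 by norm_num)] at h
  simp only [dist_eq_norm] at h
  choose a ha using fun j => ec_inj (ec_expand (s := (y j).re) (t := (x j).re) fun k => by
    simpa [emb, -Complex.ofReal_pow] using (h k).1 j)
  choose b hb using fun j => ec_inj (ec_expand (s := (y j).im) (t := (x j).im) fun k => by
    simpa [emb, -Complex.ofReal_pow] using (h k).2 j)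
  exact ⟨_, ⟨a, b, rfl⟩, funext fun j => Complex.ext (by simp [ha]) (by simp [hb])⟩

theorem bdd_of_per {G : Type*} [NormedAddCommGroup G] {f : (Fin n → ℂ) → G} (hf : Continuous f)
    (hp : ∀ l ∈ lat n, ∀ x, f (x + l) = f x) : ∃ C, 0 ≤ C ∧ ∀ x, ‖f x‖ ≤ C := by
  obtain ⟨C, hC⟩ := (isCompact_closedBall (0 : Fin n → ℂ) 2).exists_bound_of_continuousOn
    hf.continuousOn
  refine ⟨max C 0, le_max_right _ _, fun x => le_max_of_le_left ?_⟩
  rw [← hp _ ⟨fun j => -⌊(x j).re⌋, fun j => -⌊(x j).im⌋, rfl⟩]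
  refine hC _ (mem_closedBall_zero_iff.2 ((pi_norm_le_iff_of_nonneg zero_le_two).2 fun j =>
    (Complex.norm_le_abs_re_add_abs_im _).trans ?_))
  have a := Int.abs_fract (a := (x j).re)
  have b := Int.abs_fract (a := (x j).im)
  simp only [Int.fract] at a b
  simp [← sub_eq_add_neg]
  linarith [Int.fract_lt_one (x j).re, Int.fract_lt_one (x j).im,
    abs_of_nonneg (Int.fract_nonneg (x j).re), abs_of_nonneg (Int.fract_nonneg (x j).im)]

theorem reg_of_per {f : (Fin n → ℂ) → ℝ} (hf : ContDiff ℝ ∞ f)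
    (hp : ∀ l ∈ lat n, ∀ x, f (x + l) = f x) : ∃ C, 0 ≤ C ∧ Reg C f := by
  have f1 : ContDiff ℝ ∞ (fderiv ℝ f) := hf.fderiv_right (by simp)
  have p1 : ∀ l ∈ lat n, ∀ x, fderiv ℝ f (x + l) = fderiv ℝ f x := fun l hl x => by
    rw [← fderiv_comp_add_right, funext (hp l hl)]
  have p2 : ∀ l ∈ lat n, ∀ x, fderiv ℝ (fderiv ℝ f) (x + l) = fderiv ℝ (fderiv ℝ f) x :=
    fun l hl x => by rw [← fderiv_comp_add_right, funext (p1 l hl)]
  obtain ⟨C, C0, hC⟩ := bdd_of_per f1.continuous p1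
  obtain ⟨D, D0, hD⟩ := bdd_of_per (f1.continuous_fderiv (by simp)) p2
  have d0 := hf.differentiable (by simp)
  refine ⟨C + D, by positivity, fun x y => (convex_univ.norm_image_sub_le_of_norm_fderiv_le
    (fun x _ => d0 x) (fun x _ => hC x) trivial trivial).trans (by gcongr; linarith),
    fun x v => ?_⟩
  have a : ∀ y, HasFDerivAt (fun y => f (y + v) - f y) (fderiv ℝ f (y + v) - fderiv ℝ f y) y :=
    fun y => ((hasFDerivAt_comp_add_right v).2 (d0 _).hasFDerivAt).sub (d0 y).hasFDerivAt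
  have b := convex_univ.norm_image_sub_le_of_norm_hasFDerivWithin_le (C := D * ‖v‖)
    (fun y _ => (a y).hasFDerivWithinAt) (fun y _ => by
      simpa using convex_univ.norm_image_sub_le_of_norm_fderiv_le (x := y) (y := y + v)
        (fun x _ => f1.differentiable (by simp) x) (fun x _ => hD x) trivial trivial)
    (mem_univ (x - v)) (mem_univ x)
  rw [sub_add_cancel, sub_sub_cancel, Real.norm_eq_abs] at b
  rw [show f (x + v) + f (x - v) - 2 * f x = f (x + v) - f x - (f x - f (x - v)) by ring]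
  nlinarith [mul_nonneg C0 (sq_nonneg ‖v‖)]

theorem exists_part (n : ℕ) : ∃ (r : ℕ) (χ : Fin r → (Fin n → ℂ) → ℝ)
    (ζ : Fin r → (Fin n → ℂ) × (Fin n → ℂ)), (∀ a, ContDiff ℝ ∞ (χ a)) ∧ (∀ a x, 0 ≤ χ a x) ∧
    (∀ x, ∑ a, χ a x = 1) ∧ (∀ a, ∀ l ∈ lat n, ∀ x, χ a (x + l) = χ a x) ∧
    ∀ a x, χ a x ≠ 0 → emb x ∈ Metric.closedBall (ζ a) (1 / 4) := by
  obtain ⟨t, -, ht, hc⟩ := (isCompact_closedBall (0 : (Fin n → ℂ) × (Fin n → ℂ))
    1).finite_cover_balls (show (0 : ℝ) < 1 / 8 by norm_num)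
  obtain ⟨r, ζ, -, hζ⟩ := ht.fin_param
  let b : ∀ a, ContDiffBump (ζ a) := fun a => ⟨1 / 8, 1 / 4, by norm_num, by norm_num⟩
  have S0 : ∀ x, 0 < ∑ a, b a (emb x) := fun x => by
    obtain ⟨z, hz, h⟩ := mem_iUnion₂.1 (hc (emb_mem x))
    obtain ⟨a, rfl⟩ : z ∈ range ζ := hζ ▸ hz
    exact Finset.sum_pos' (fun a _ => (b a).nonneg) ⟨a, Finset.mem_univ a, by
      rw [(b a).one_of_mem_closedBall (Metric.ball_subset_closedBall h)]; exact one_pos⟩
  have bs : ∀ a, ContDiff ℝ ∞ fun x => b a (emb x) := fun a => (b a).contDiff.comp emb_smooth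
  refine ⟨r, fun a x => b a (emb x) / ∑ a, b a (emb x), ζ, fun a => (bs a).div
    (ContDiff.sum fun a _ => bs a) fun x => (S0 x).ne', fun a x => div_nonneg (b a).nonneg (S0 x).le,
    fun x => by rw [← Finset.sum_div, div_self (S0 x).ne'], fun a l hl x => by
      simp only [emb_lat hl], fun a x h => Metric.ball_subset_closedBall ?_⟩
  have : emb x ∈ Function.support (b a) := left_ne_zero_of_mul h
  rwa [(b a).support_eq] at this

theorem exists_scan (n : ℕ) : ∃ (G : ℝ × (Fin n → ℂ) → ℝ)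
    (Z : Set (ℝ × (Fin n → ℂ) × (Fin n → ℂ))), Continuous G ∧ (∀ p, 0 ≤ G p ∧ G p ≤ 1) ∧
    (∀ x, G (0, x) = 0) ∧ (∀ τ x, 1 ≤ τ → G (τ, x) = 1) ∧ (∀ τ, Reg 1 fun x => G (τ, x)) ∧
    (∀ l ∈ lat n, ∀ τ x, G (τ, x + l) = G (τ, x)) ∧ IsClosed Z ∧
    (∀ τ x, (τ, emb x) ∉ Z → ∀ᶠ σ in 𝓝 τ, G (σ, x) = G (τ, x)) ∧
    ∀ τ x y, (τ, emb x) ∈ Z → (τ, emb y) ∈ Z → ∃ l ∈ lat n, y = x + l := by
  obtain ⟨r, χ, ζ, h0, h1, h2, h3, h4⟩ := exists_part n
  choose C C0 hC using fun a => reg_of_per (h0 a) (h3 a)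
  obtain ⟨M, hM⟩ := exists_nat_ge (r * (4 + 5 * ∑ a, C a) + 2)
  obtain ⟨G, hG, hf⟩ := exists_fix (lat n) (by
    rintro _ ⟨a, b, rfl⟩
    exact ⟨a + a, b + b, funext fun j => by simp; ring⟩) χ (Finset.sum_nonneg fun a _ => C0 a)
    (fun a => (h0 a).continuous) h1 h2
    (fun a => (hC a).mono (Finset.single_le_sum (fun a _ => C0 a) (Finset.mem_univ a))) h3 hM
  refine ⟨G, ⋂ k, lev M (fun a => Metric.closedBall (ζ a) (1 / 4)) (fun y => y * y) k,
    G.continuous, fun p => ⟨hG.1 p, hG.2.1 p⟩, fun x => hG.2.2.1 _ _ le_rfl, hG.2.2.2.1,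
    fun τ => ⟨hG.2.2.2.2.1 τ, hG.2.2.2.2.2.1 τ⟩, hG.2.2.2.2.2.2, isClosed_iInter fun k =>
      lev_closed (fun _ => Metric.isClosed_closedBall) (by fun_prop) k, fun τ x h => ?_,
    fun τ x y hx hy => emb_expand fun k => ?_⟩
  · obtain ⟨k, hk⟩ := not_forall.1 (mt mem_iInter.2 h)
    exact lev_const hG hf emb_add h4 k τ x hk
  · obtain ⟨a, k1, k2⟩ := lev_sep k τ _ _ (mem_iInter.1 hx _) (mem_iInter.1 hy _)
    linarith [dist_triangle_right ((fun y => y * y)^[k] (emb y)) ((fun y => y * y)^[k] (emb x))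
      (ζ a), Metric.mem_closedBall.1 k1, Metric.mem_closedBall.1 k2]

/-- Contact from above with a function whose second differences are bounded below. -/
theorem sub_contact2 {q U : (Fin n → ℂ) → ℝ} {x : Fin n → ℂ} (hq : ContDiffAt ℝ 2 q x)
    (hU : Reg 1 U) (hmax : IsLocalMax (fun y => U y - q y) x) :
    (1 + levi q x).PosSemidef ∧ (1 / 2 : ℝ) ^ n ≤ detPlus (1 + levi q x) := by
  have key : ∀ v : Fin n → ℂ, -‖v‖ ^ 2 ≤ fderiv ℝ (fderiv ℝ q) x v v := by
    intro v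
    obtain ⟨a1, a2⟩ := line_deriv hq v
    obtain ⟨b1, b2⟩ := line_deriv hq (-v)
    have c1 : ∀ s : ℝ, HasDerivAt (fun s : ℝ => -‖v‖ ^ 2 * s ^ 2) (-‖v‖ ^ 2 * (2 * s)) s :=
      fun s => by simpa using (hasDerivAt_pow 2 s).const_mul (-‖v‖ ^ 2)
    have c2 : HasDerivAt (fun s : ℝ => -‖v‖ ^ 2 * (2 * s)) (-‖v‖ ^ 2 * 2) 0 := by
      simpa using ((hasDerivAt_id (0 : ℝ)).const_mul 2).const_mul (-‖v‖ ^ 2)
    have hm : IsLocalMax (fun s : ℝ => -‖v‖ ^ 2 * s ^ 2 - q (x + s • v) - q (x + s • -v)) 0 := by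
      filter_upwards [(line_tendsto x v).eventually hmax, (line_tendsto x (-v)).eventually hmax]
        with s h1 h2
      have h3 := (abs_le.1 (hU.2 x (s • v))).1
      rw [norm_smul, mul_pow, Real.norm_eq_abs, sq_abs, sub_eq_add_neg x, ← smul_neg] at h3
      simp only [zero_smul, add_zero] at h1 h2 ⊢
      linarith
    have := oneD ((a1.and b1).mono fun s hs => ((c1 s).sub hs.1).sub hs.2) ((c2.sub a2).sub b2) hm
    simp only [map_neg, _root_.neg_apply, neg_neg] at this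
    linarith
  have hH : (1 + levi q x).IsHermitian := Matrix.isHermitian_one.add (levi_isHermitian hq)
  have hform : ∀ ξ : Fin n → ℂ,
      1 / 2 * (star ξ ⬝ᵥ ξ).re ≤ (star ξ ⬝ᵥ ((1 + levi q x) *ᵥ ξ)).re := by
    intro ξ
    rw [Matrix.add_mulVec, Matrix.one_mulVec, dotProduct_add, Complex.add_re, levi_form hq]
    have k1 := key (star ξ)
    have k2 := key (Complex.I • star ξ)
    have k3 : ‖ξ‖ ^ 2 ≤ (star ξ ⬝ᵥ ξ).re := by
      have s0 : 0 ≤ (star ξ ⬝ᵥ ξ).re := by rw [star_dot_self]; positivity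
      rw [← Real.le_sqrt (norm_nonneg _) s0, pi_norm_le_iff_of_nonneg (Real.sqrt_nonneg _)]
      intro i
      rw [Real.le_sqrt (norm_nonneg _) s0, star_dot_self, Complex.sq_norm, Complex.normSq_apply,
        ← sq, ← sq]
      exact Finset.single_le_sum (f := fun j => (ξ j).re ^ 2 + (ξ j).im ^ 2)
        (fun j _ => by positivity) (Finset.mem_univ i)
    rw [norm_smul, Complex.norm_I, one_mul] at k2
    rw [norm_star] at k1 k2
    linarith
  have hP : (1 + levi q x).PosSemidef := by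
    refine posSemidef_of_re hH fun ξ => le_trans ?_ (hform ξ)
    rw [star_dot_self]
    positivity
  refine ⟨hP, ?_⟩
  rw [detPlus, if_pos hP]
  exact det_ge hH (by norm_num) hform

end Pool.Agent.Lib.MP_5fa4f2_an
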