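import Pool.Agent.Lib.MP_5fa4f2_an.Cont

/-! The time profiles, with a lower bound for the singular function at the final time. -/

set_option autoImplicit false

open Filter Topology MeasureTheory Set
open scoped ContDiff Manifold

namespace Pool.Agent.Lib.MP_5fa4f2_an

theorem exists_time2 {A c : ℝ} (hA : 1 ≤ A) (hc : 0 < c) : ∃ g φ w : ℝ → ℝ,
    Continuous g ∧ Continuous φ ∧ ContDiff ℝ ∞ w ∧ g 0 = 0 ∧ φ 0 = 0 ∧
    (∀ t, 0 ≤ φ t ∧ φ t ≤ 1) ∧ (∀ t, 0 ≤ w t ∧ w t ≤ Real.exp (-A)) ∧ (∀ᵐ t, 0 < w t) ∧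
    (∀ t, w t ≠ 0 → ∀ᶠ s in 𝓝 t, φ s = φ t) ∧
    (∀ r t, DifferentiableAt ℝ r t → IsLocalMin (fun s => g s - r s) t →
      1 ≤ Real.exp (deriv r t) * w t) ∧
    ∃ t ∈ Ioo (0 : ℝ) 1, g t < c ∧ 1 / 2 ≤ φ t := by
  obtain ⟨K, hK, hK1, hKq, hKv⟩ := exists_fat
  set ε := min (c / 4) (1 / 2) with hε
  have ε0 : 0 < ε := lt_min (by positivity) (by norm_num)
  set δ := ε / A with hδ
  have δ0 : 0 < δ := by positivity
  have δ1 : δ < 1 := by
    rw [hδ, div_lt_one (by linarith)]
    linarith [min_le_right (c / 4) (1 / 2)]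
  obtain ⟨B, hB, hB1, hBK, hBt⟩ := exists_contMDiff_zero_iff_one_iff_of_isClosed (n := ⊤)
    𝓘(ℝ, ℝ) hK ((isClosed_Iic (a := (-1 : ℝ))).union (isClosed_Ici (a := (2 : ℝ))))
    (disjoint_left.2 fun x hx hx' => by
      rcases hx' with h | h
      · linarith [(hK1 hx).1, mem_Iic.1 h]
      · linarith [(hK1 hx).2, mem_Ici.1 h])
  let D : ℝ → ℝ := fun s => δ * B s
  have Ds : ContDiff ℝ ∞ D := contDiff_const.mul hB.contDiff
  have Dc : Continuous D := Ds.continuous
  have D0 : ∀ s, 0 ≤ D s := fun s => mul_nonneg δ0.le (hB1 ⟨s, rfl⟩).1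
  have D1 : ∀ s, D s ≤ δ := fun s => mul_le_of_le_one_right δ0.le (hB1 ⟨s, rfl⟩).2
  have Dp : ∀ s, s ∉ K → 0 < D s := fun s hs =>
    mul_pos δ0 ((hB1 ⟨s, rfl⟩).1.lt_of_ne fun h => hs ((hBK s).2 h.symm))
  have Dz : ∀ s ∈ K, D s = 0 := fun s hs => by simp [D, (hBK s).1 hs]
  have Df : ∀ s, s ≤ -1 ∨ 2 ≤ s → D s = δ := fun s hs => by simp [D, (hBt s).1 hs]
  let h : ℝ → ℝ := fun s => ∫ x in (0 : ℝ)..s, D x
  have hd : ∀ s, HasDerivAt h (D s) s := fun s => (Dc.integral_hasStrictDerivAt 0 s).hasDerivAt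
  have hc' : Continuous h := continuous_iff_continuousAt.2 fun s => (hd s).continuousAt
  have hs : ∀ a b, h b - h a = ∫ x in a..b, D x := fun a b =>
    intervalIntegral.integral_interval_sub_left (Dc.intervalIntegrable _ _)
      (Dc.intervalIntegrable _ _)
  have hm : StrictMono h := fun a b hab => by
    obtain ⟨q, h1, h2⟩ := exists_rat_btwn hab
    have := intervalIntegral.integral_pos hab Dc.continuousOn (fun x _ => D0 x)
      ⟨q, ⟨h1.le, h2.le⟩, Dp _ (hKq q)⟩
    linarith [hs a b]
  have hsurj : Function.Surjective h := by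
    refine hc'.surjective ?_ ?_
    · refine (tendsto_atTop_add_const_left _ (h 2 - 2 * δ)
        (tendsto_id.atTop_mul_const δ0)).congr' ((eventually_ge_atTop 2).mono fun s h2 => ?_)
      have := hs 2 s
      rw [intervalIntegral.integral_congr (g := fun _ => δ) fun x hx =>
        Df x (Or.inr (by rw [uIcc_of_le h2] at hx; exact hx.1))] at this
      simp only [intervalIntegral.integral_const, smul_eq_mul, id] at this ⊢
      linarith
    · refine (tendsto_atBot_add_const_left _ (h (-1) + δ)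
        (tendsto_id.atBot_mul_const δ0)).congr' ((eventually_le_atBot (-1)).mono fun s h2 => ?_)
      have := hs s (-1)
      rw [intervalIntegral.integral_congr (g := fun _ => δ) fun x hx =>
        Df x (Or.inl (by rw [uIcc_of_le h2] at hx; exact hx.2))] at this
      simp only [intervalIntegral.integral_const, smul_eq_mul, id] at this ⊢
      linarith
  let e := hm.orderIsoOfSurjective h hsurj
  let γ : ℝ → ℝ := e.symm
  have γc : Continuous γ := e.symm.continuous
  have γh : ∀ s, γ (h s) = s := fun s => e.symm_apply_apply s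
  have hγ : ∀ t, h (γ t) = t := fun t => e.apply_symm_apply t
  have h0 : h 0 = 0 := intervalIntegral.integral_same
  have γ0 : γ 0 = 0 := by rw [← h0, γh, h0]
  let I : ℝ → ℝ := K.indicator fun _ => 1
  have Ii : ∀ a b, IntervalIntegrable I volume a b := fun a b =>
    ⟨(integrableOn_const (by simp)).indicator hK.measurableSet,
      (integrableOn_const (by simp)).indicator hK.measurableSet⟩
  let Φ : ℝ → ℝ := fun s => ∫ x in (0 : ℝ)..s, I x
  have Φc : Continuous Φ := intervalIntegral.continuous_primitive Ii 0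
  have Φ1 : 1 / 2 ≤ Φ 1 := by
    simp only [Φ, I]
    rw [intervalIntegral.integral_of_le zero_le_one, ← integral_Icc_eq_integral_Ioc,
      setIntegral_indicator hK.measurableSet, inter_eq_self_of_subset_right hK1]
    simpa using hKv
  refine ⟨fun t => ε * γ t, fun t => max 0 (min 1 (Φ (γ t))), fun t => expNegInvGlue (D (γ t) / ε),
    by fun_prop, by fun_prop, ?_,
    by simp [γ0], by simp [γ0, Φ], fun t => ⟨le_max_left _ _, max_le zero_le_one (min_le_left _ _)⟩,
    fun t => ⟨expNegInvGlue.nonneg _, ?_⟩, ?_, fun t ht => ?_, fun r t hr hmin => ?_,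
    h 1, ⟨h0 ▸ hm one_pos, ?_⟩, ?_⟩
  · refine contDiff_infty.2 fun n => smooth_comp_inv Ds (fun q => (Dp _ (hKq q)).ne') hd h0 γc γh
      hγ n (fun s => expNegInvGlue (D s / ε)) fun k => ⟨fun s => ε⁻¹ ^ k *
        ((Polynomial.X ^ k : Polynomial ℝ).eval (D s / ε)⁻¹ * expNegInvGlue (D s / ε)),
        contDiff_const.mul ((expNegInvGlue.contDiff_polynomial_eval_inv_mul _).comp
          (Ds.div_const ε)), fun s => ?_⟩
    rcases eq_or_ne (D s) 0 with z | z
    · simp [z, expNegInvGlue.zero]
    · simp only [Polynomial.eval_pow, Polynomial.eval_X, inv_div, div_pow, inv_pow]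
      field_simp
  · refine (expNegInvGlue.monotone (div_le_div_of_nonneg_right (D1 _) ε0.le)).trans (le_of_eq ?_)
    have : δ / ε = A⁻¹ := by rw [hδ]; field_simp
    rw [this, expNegInvGlue, if_neg (not_le.2 (by positivity)), inv_inv]
  · have : volume (h '' K) = 0 := addHaar_image_eq_zero_of_det_fderivWithin_eq_zero volume
      (f' := fun _ => 0) (fun x hx => by
        have := (hd x).hasFDerivAt.hasFDerivWithinAt (s := K)
        simpa [Dz x hx] using this) (fun x _ => by
        simp [ContinuousLinearMap.det])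
    filter_upwards [measure_eq_zero_iff_ae_notMem.1 this] with t ht
    exact expNegInvGlue.pos_of_pos (div_pos (Dp _ fun h' => ht ⟨_, h', hγ t⟩) ε0)
  · have h1 : γ t ∉ K := fun h' => ht (by simp [Dz _ h', expNegInvGlue.zero])
    obtain ⟨ρ, ρ0, hρ⟩ := Metric.isOpen_iff.1 hK.isOpen_compl _ h1
    filter_upwards [γc.continuousAt.eventually (Metric.ball_mem_nhds _ ρ0)] with s hs'
    have h2 : Φ (γ s) - Φ (γ t) = ∫ x in γ t..γ s, I x :=
      intervalIntegral.integral_interval_sub_left (Ii _ _) (Ii _ _)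
    rw [intervalIntegral.integral_congr (g := fun _ => 0) fun x hx => indicator_of_notMem
      (hρ ((convex_ball _ _).ordConnected.uIcc_subset (Metric.mem_ball_self ρ0) hs' hx)) _] at h2
    simp only [intervalIntegral.integral_zero] at h2
    rw [sub_eq_zero.1 h2]
  · obtain ⟨s, rfl⟩ := hsurj t
    have h1 : IsLocalMin (fun x => ε * x - r (h x)) s := by
      simpa only [Function.comp_def, γh] using hmin.comp_continuous hc'.continuousAt
    have h2 := h1.hasDerivAt_eq_zero (((hasDerivAt_id s).const_mul ε).sub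
      (hr.hasDerivAt.comp s (hd s)))
    have h3 : 0 < D s := (D0 s).lt_of_ne fun h' => by
      rw [← h'] at h2
      simp at h2
      linarith
    have h4 : deriv r (h s) = (D s / ε)⁻¹ := by field_simp; linarith
    simp only [γh]
    rw [expNegInvGlue, if_neg (not_le.2 (by positivity)), h4, ← Real.exp_add]
    simp
  · have := intervalIntegral.integral_mono_on zero_le_one (Dc.intervalIntegrable 0 1)
      (intervalIntegrable_const (μ := volume) (c := δ)) fun x _ => D1 x
    simp only [intervalIntegral.integral_const, smul_eq_mul, sub_zero, one_mul] at this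
    exact this.trans_lt δ1
  · simp only [γh]
    exact ⟨by linarith [min_le_left (c / 4) (1 / 2)], le_max_of_le_right (le_min (by norm_num) Φ1)⟩

end Pool.Agent.Lib.MP_5fa4f2_an
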